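import Pool.Agent.Helper74.RN.St

/-!
# RN, module CFT: context-free languages are reduced to `TH R`
-/

set_option autoImplicit false

namespace Pool.Agent.Helper18.RN

open Pool.Agent.Helper74 Pool.Agent.Helper74.RN

private lemma flatMap_ne_nil {β γ : Type} (l : List β) (k : β → List γ) (hl : l ≠ [])
    (hk : ∀ b, k b ≠ []) : l.flatMap k ≠ [] := by
  cases l with
  | nil => exact absurd rfl hl
  | cons b l =>
    intro h
    rw [List.flatMap_cons] at h
    exact hk b (List.append_eq_nil_iff.mp h).1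

theorem hCFT (hNFM : Pool.Agent.Helper74.DR.StNFM) (hSIM : Pool.Agent.Helper74.WB.StSIM)
    (hCNT : Pool.Agent.Helper74.WB.StCNT) : Pool.Agent.Helper74.RN.StCFT := by
  intro G R hR α _ g
  obtain ⟨W, hW, rk, P, S, hP, hg⟩ := hNFM α g
  obtain ⟨u, h, hu, hh, hA⟩ := hSIM α W rk P S hP
  have hc : Countable (WB.Lb W) := hCNT W
  obtain ⟨k, hk, hop⟩ := hR (WB.Lb W)
  refine ⟨u.flatMap k, fun a => (h a).flatMap k, flatMap_ne_nil u k hu hk,
    fun a => flatMap_ne_nil (h a) k (hh a) hk, ?_⟩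
  intro w hw
  rw [hg w hw, hA w, hop, List.flatMap_append, List.flatMap_assoc]

end Pool.Agent.Helper18.RN
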